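import Mathlib
import Pool.Agent.helper38.VA.Spec

/-!
Row va:MK (MP_a2a22c_al): Minkowski's lemma. An endomorphism `T ≡ 1` modulo `3` of a free abelian group of finite rank: a vector
fixed by a power `T ^ j`, `j > 0`, is fixed by `T`.
-/

set_option autoImplicit false

namespace Pool.Agent.VA

open Matrix Module Pool.Agent.PR Pool.Agent.H48SL

/-- an integer divisible by all powers of three is zero -/
theorem MK_int (c : ℤ) (h : ∀ k : ℕ, (3 : ℤ) ^ k ∣ c) : c = 0 := by
  by_contra hc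
  have h1 := h c.natAbs
  have h2 : (3 : ℤ) ^ c.natAbs ∣ (c.natAbs : ℤ) := by
    rw [Int.dvd_natAbs]; exact h1
  have h3 : 3 ^ c.natAbs ∣ c.natAbs := by exact_mod_cast h2
  have h4 : 0 < c.natAbs := Int.natAbs_pos.2 hc
  have h5 := Nat.le_of_dvd h4 h3
  have h6 : c.natAbs < 3 ^ c.natAbs := Nat.lt_pow_self (by norm_num)
  omega

/-- a vector divisible by all powers of three is zero -/
theorem MK_zero {M : Type} [AddCommGroup M] [Module.Free ℤ M] (w : M)
    (h : ∀ k : ℕ, ∃ y : M, w = ((3 : ℤ) ^ k) • y) : w = 0 := by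
  have b := Module.Free.chooseBasis ℤ M
  apply b.repr.injective
  rw [map_zero]
  ext i
  rw [Finsupp.zero_apply]
  apply MK_int
  intro k
  obtain ⟨y, hy⟩ := h k
  rw [hy, map_smul, Finsupp.smul_apply, smul_eq_mul]
  exact dvd_mul_right _ _

theorem MK_pow {M : Type} [AddCommGroup M] (T : M →ₗ[ℤ] M)
    (hT : ∀ x, ∃ y, T x - x = (3 : ℤ) • y) (i : ℕ) : ∀ x, ∃ y, (T ^ i) x - x = (3 : ℤ) • y := by
  induction i with
  | zero => intro x; exact ⟨0, by simp⟩
  | succ i ih =>
    intro x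
    obtain ⟨y, hy⟩ := ih x
    obtain ⟨z, hz⟩ := hT ((T ^ i) x)
    refine ⟨z + y, ?_⟩
    rw [pow_succ', Module.End.mul_apply, smul_add, ← hy, ← hz]
    abel

/-- `T ^ i - 1` maps `3 ^ k M` to `3 ^ (k + 1) M` -/
theorem MK_up {M : Type} [AddCommGroup M] (T : M →ₗ[ℤ] M)
    (hT : ∀ x, ∃ y, T x - x = (3 : ℤ) • y) (k : ℕ) (x : M) (hx : ∃ y, x = ((3 : ℤ) ^ k) • y) :
    ∃ y, T x - x = ((3 : ℤ) ^ (k + 1)) • y := by
  obtain ⟨y, rfl⟩ := hx
  obtain ⟨z, hz⟩ := hT y
  refine ⟨z, ?_⟩
  rw [map_smul, ← smul_sub, hz, smul_smul, pow_succ]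

theorem MK_sum {M : Type} [AddCommGroup M] (T : M →ₗ[ℤ] M) (v : M) (j : ℕ) :
    (T ^ j) v - v = ∑ i ∈ Finset.range j, (T ^ i) (T v - v) := by
  induction j with
  | zero => simp
  | succ j ih =>
    rw [Finset.sum_range_succ, ← ih, map_sub, ← Module.End.mul_apply, ← pow_succ]
    abel

/-- the case `3 ∤ j` -/
theorem MK_cop {M : Type} [AddCommGroup M] [Module.Free ℤ M] (T : M →ₗ[ℤ] M)
    (hT : ∀ x, ∃ y, T x - x = (3 : ℤ) • y) (j : ℕ) (hj : ¬ 3 ∣ j) (v : M) (hv : (T ^ j) v = v) :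
    T v = v := by
  have hw : T v - v = 0 := by
    apply MK_zero
    intro k
    induction k with
    | zero => exact ⟨T v - v, by simp⟩
    | succ k ih =>
      have h1 : ∀ m : ℕ, ∃ y, ∑ i ∈ Finset.range m, (T ^ i) (T v - v)
          = (m : ℤ) • (T v - v) + ((3 : ℤ) ^ (k + 1)) • y := by
        intro m
        induction m with
        | zero => exact ⟨0, by simp⟩
        | succ m ihm =>
          obtain ⟨y, hy⟩ := ihm
          obtain ⟨z, hz⟩ := MK_up (T ^ m) (MK_pow T hT m) k (T v - v) ih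
          refine ⟨y + z, ?_⟩
          have e : (T ^ m) (T v - v) = (T v - v) + ((3 : ℤ) ^ (k + 1)) • z := by
            rw [← hz]; abel
          rw [Finset.sum_range_succ, hy, e, smul_add, Nat.cast_succ, add_smul, one_smul]
          abel
      obtain ⟨y, hy⟩ := h1 j
      rw [← MK_sum, hv, sub_self] at hy
      obtain ⟨u, hu⟩ := ih
      have hc : IsCoprime (j : ℤ) 3 := by
        have : Nat.Coprime j 3 := ((Nat.Prime.coprime_iff_not_dvd Nat.prime_three).2 hj).symm
        exact_mod_cast Nat.isCoprime_iff_coprime.2 this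
      obtain ⟨a, b, hab⟩ := hc
      refine ⟨b • u - a • y, ?_⟩
      have e1 : (j : ℤ) • (T v - v) = -(((3 : ℤ) ^ (k + 1)) • y) := by
        rw [eq_neg_iff_add_eq_zero]; exact hy.symm
      have e2 : (3 : ℤ) • (T v - v) = ((3 : ℤ) ^ (k + 1)) • u := by
        rw [hu, smul_smul, pow_succ, mul_comm]
      calc T v - v = (a * j + b * 3) • (T v - v) := by rw [hab, one_smul]
        _ = a • ((j : ℤ) • (T v - v)) + b • ((3 : ℤ) • (T v - v)) := by
            rw [add_smul, mul_smul, mul_smul]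
        _ = ((3 : ℤ) ^ (k + 1)) • (b • u - a • y) := by
            rw [e1, e2, smul_sub, smul_neg, smul_comm a, smul_comm b]
            abel
  exact sub_eq_zero.1 hw

/-- the case `j = 3` -/
theorem MK_three {M : Type} [AddCommGroup M] [Module.Free ℤ M] (T : M →ₗ[ℤ] M)
    (hT : ∀ x, ∃ y, T x - x = (3 : ℤ) • y) (v : M) (hv : (T ^ 3) v = v) : T v = v := by
  have hw : T v - v = 0 := by
    apply MK_zero
    intro k
    induction k with
    | zero => exact ⟨T v - v, by simp⟩
    | succ k ih =>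
      obtain ⟨y, hy⟩ := MK_up T hT k (T v - v) ih
      obtain ⟨z, hz⟩ := MK_up T hT (k + 1) (T (T v - v) - (T v - v)) ⟨y, hy⟩
      refine ⟨-(y + z), ?_⟩
      have h3 : (3 : ℤ) ≠ 0 := by norm_num
      apply smul_right_injective M h3
      show (3 : ℤ) • (T v - v) = (3 : ℤ) • (((3 : ℤ) ^ (k + 1)) • (-(y + z)))
      have e1 : T (T (T v)) = v := by
        have : (T ^ 3) v = T (T (T v)) := by
          rw [pow_succ, pow_succ, pow_one]; rfl
        rw [← this]; exact hv
      have e2 : (3 : ℤ) • (((3 : ℤ) ^ (k + 1)) • (-(y + z)))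
          = -((3 : ℤ) • (((3 : ℤ) ^ (k + 1)) • y)) - ((3 : ℤ) ^ (k + 1 + 1)) • z := by
        rw [pow_succ (3 : ℤ) (k + 1), mul_comm, mul_smul, smul_neg, smul_neg, smul_add, smul_add]
        abel
      rw [e2, ← hz, ← hy]
      simp only [map_sub]
      rw [e1]
      have e3 : ∀ x : M, (3 : ℤ) • x = x + x + x := by
        intro x
        have : (3 : ℤ) = 1 + 1 + 1 := by norm_num
        rw [this, add_smul, add_smul, one_smul]
      rw [e3, e3]
      abel
  exact sub_eq_zero.1 hw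

theorem MK : MK_stmt := by
  intro M _ _ _ T hT j
  induction j using Nat.strong_induction_on with
  | _ j ih =>
    intro hj v hv
    by_cases h3 : 3 ∣ j
    · obtain ⟨i, rfl⟩ := h3
      have hi : 0 < i := by omega
      have h1 : ((T ^ i) ^ 3) v = v := by
        rw [← pow_mul, mul_comm]; exact hv
      have h2 := MK_three (T ^ i) (MK_pow T hT i) v h1
      exact ih i (by omega) hi v h2
    · exact MK_cop T hT j h3 v hv

end Pool.Agent.VA
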